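import Pool.Agent.N428.CD.Low

set_option autoImplicit false
set_option linter.unusedSectionVars false

namespace Pool.Agent.N428.CD

open Finset Filter Topology

/-- Compactness of the convex hull of a compact set (after Pool.Agent.H73R3.compact_hull of the
starting files). -/
theorem compact_hull {E : Type*} [NormedAddCommGroup E] [NormedSpace ℝ E]
    [FiniteDimensional ℝ E] {s : Set E} (hs : IsCompact s) : IsCompact (convexHull ℝ s) := by
  classical
  rcases s.eq_empty_or_nonempty with rfl | ⟨x0, hx0⟩
  · rw [convexHull_empty]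
    exact isCompact_empty
  obtain ⟨n, hn⟩ : ∃ n, n = Module.finrank ℝ E + 1 := ⟨_, rfl⟩
  have hK : IsCompact ((stdSimplex ℝ (Fin n)) ×ˢ (Set.pi Set.univ (fun _ : Fin n => s))) :=
    (isCompact_stdSimplex ℝ (Fin n)).prod (isCompact_univ_pi fun _ => hs)
  have hcont : Continuous (fun p : (Fin n → ℝ) × (Fin n → E) => ∑ i, p.1 i • p.2 i) := by
    refine continuous_finsetSum _ fun i _ => ?_
    exact ((continuous_apply i).comp continuous_fst).smul ((continuous_apply i).comp continuous_snd)
  have heq : convexHull ℝ s = (fun p : (Fin n → ℝ) × (Fin n → E) => ∑ i, p.1 i • p.2 i) ''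
      ((stdSimplex ℝ (Fin n)) ×ˢ (Set.pi Set.univ (fun _ : Fin n => s))) := by
    apply Set.Subset.antisymm
    · intro x hx
      obtain ⟨ι, hι, z, w, hz, hai, hw0, hw1, hwz⟩ := eq_pos_convex_span_of_mem_convexHull hx
      have hcard : Fintype.card ι ≤ Fintype.card (Fin n) := by
        have h1 := hai.card_le_finrank_succ
        have h2 := Submodule.finrank_le (vectorSpan ℝ (Set.range z))
        rw [Fintype.card_fin, hn]
        omega
      obtain ⟨e⟩ := Function.Embedding.nonempty_of_card_le hcard
      refine ⟨(Function.extend e w 0, Function.extend e z (fun _ => x0)), ⟨⟨?_, ?_⟩, ?_⟩, ?_⟩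
      · intro j
        show (0 : ℝ) ≤ Function.extend e w 0 j
        by_cases hj : ∃ i, e i = j
        · obtain ⟨i, rfl⟩ := hj
          rw [e.injective.extend_apply]
          exact (hw0 i).le
        · rw [Function.extend_apply' _ _ _ hj]
          exact le_rfl
      · rw [← hw1]
        symm
        refine Fintype.sum_of_injective e e.injective _ _ ?_ ?_
        · intro j hj
          show Function.extend e w 0 j = 0
          rw [Function.extend_apply' _ _ _ hj]
          rfl
        · intro i
          show w i = Function.extend e w 0 (e i)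
          rw [e.injective.extend_apply]
      · intro j _
        by_cases hj : ∃ i, e i = j
        · obtain ⟨i, rfl⟩ := hj
          show Function.extend e z (fun _ => x0) (e i) ∈ s
          rw [e.injective.extend_apply]
          exact hz ⟨i, rfl⟩
        · show Function.extend e z (fun _ => x0) j ∈ s
          rw [Function.extend_apply' _ _ _ hj]
          exact hx0
      · rw [← hwz]
        symm
        refine Fintype.sum_of_injective e e.injective _ _ ?_ ?_
        · intro j hj
          show Function.extend e w 0 j • Function.extend e z (fun _ => x0) j = 0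
          rw [Function.extend_apply' w _ _ hj]
          simp
        · intro i
          show w i • z i = Function.extend e w 0 (e i) • Function.extend e z (fun _ => x0) (e i)
          rw [e.injective.extend_apply, e.injective.extend_apply]
    · rintro _ ⟨⟨w, z⟩, ⟨⟨hw0, hw1⟩, hz⟩, rfl⟩
      refine (convex_convexHull ℝ s).sum_mem (fun i _ => hw0 i) hw1 (fun i _ => ?_)
      exact subset_convexHull ℝ s (hz i (Set.mem_univ i))
  rw [heq]
  exact hK.image hcont

theorem tl_tendsto (r : ℕ) : Tendsto (fun k : ℕ => tl r k) atTop (𝓝 1) := by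
  unfold tl
  have h : Tendsto (fun k : ℕ => ∏ j ∈ Ico 1 r, (1 - (j : ℝ) / (k : ℝ))) atTop
      (𝓝 (∏ _j ∈ Ico 1 r, (1 : ℝ))) := by
    apply tendsto_finsetProd
    intro j _
    have : Tendsto (fun k : ℕ => (j : ℝ) / (k : ℝ)) atTop (𝓝 0) :=
      tendsto_const_div_atTop_nhds_zero_nat (j : ℝ)
    simpa using this.const_sub 1
  simpa using h

/-- vector of clique densities -/
noncomputable def dens {N : ℕ} {m : ℕ} (e : Fin m → ℕ) (G : SimpleGraph (Fin N)) : Fin m → ℝ :=
  fun i => (kc G (e i) : ℝ) / ((Nat.choose N (e i) : ℕ) : ℝ)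

theorem kc_top (N r : ℕ) : kc (⊤ : SimpleGraph (Fin N)) r = N.choose r := by
  classical
  have : cl (⊤ : SimpleGraph (Fin N)) r = powersetCard r univ := by
    ext K
    rw [mem_cl, mem_powersetCard]
    constructor
    · rintro ⟨h, -⟩
      exact ⟨subset_univ _, h⟩
    · rintro ⟨-, h⟩
      refine ⟨h, ?_⟩
      intro x _ y _ hxy
      exact hxy
  rw [kc, this, card_powersetCard, card_univ, Fintype.card_fin]

/-- inclusion of the hull in the limit region -/
theorem lower {m : ℕ} (e : Fin m → ℕ) (he : ∀ i, 0 < e i) (N : ℕ) (hN : ∀ i, e i ≤ N) :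
    convexHull ℝ (insert (1 : Fin m → ℝ) (Set.range fun k : ℕ => fun i : Fin m =>
        tl (e i) (k + 1))) ⊆
      convexHull ℝ {x : Fin m → ℝ | ∃ G : SimpleGraph (Fin N), x = dens e G} := by
  classical
  apply convexHull_min _ (convex_convexHull _ _)
  have hch : ∀ i, ((Nat.choose N (e i) : ℕ) : ℝ) ≠ 0 := by
    intro i
    exact_mod_cast (Nat.choose_pos (hN i)).ne'
  rintro y (rfl | ⟨k, rfl⟩)
  · apply subset_convexHull
    refine ⟨⊤, ?_⟩
    funext i
    unfold dens
    rw [kc_top, div_self (hch i)]
    rfl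
  · have hw : ∑ _f : Fin N → Fin (k + 1), ((1 : ℝ) / ((k + 1 : ℕ) : ℝ) ^ N) = 1 := by
      rw [sum_const, card_univ, Fintype.card_fun, Fintype.card_fin, Fintype.card_fin, nsmul_eq_mul]
      push_cast
      have : ((k : ℝ) + 1) ^ N ≠ 0 := by positivity
      field_simp
    have := (convex_convexHull ℝ {x : Fin m → ℝ | ∃ G : SimpleGraph (Fin N), x = dens e G}).sum_mem
      (t := (univ : Finset (Fin N → Fin (k + 1))))
      (w := fun _ => (1 : ℝ) / ((k + 1 : ℕ) : ℝ) ^ N) (z := fun f => dens e (GF f))
      (fun _ _ => by positivity) hw (fun f _ => subset_convexHull _ _ ⟨GF f, rfl⟩)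
    convert this using 1
    funext i
    rw [Finset.sum_apply]
    have h1 := avg_kc (V := Fin N) (k + 1) (e i) (Nat.succ_pos k) (he i)
    rw [Fintype.card_fin] at h1
    have h2 : ∑ f : Fin N → Fin (k + 1), (((1 : ℝ) / ((k + 1 : ℕ) : ℝ) ^ N) • dens e (GF f)) i =
        (∑ f : Fin N → Fin (k + 1), ((1 : ℝ) / ((k + 1 : ℕ) : ℝ) ^ N) * (kc (GF f) (e i) : ℝ)) /
          ((Nat.choose N (e i) : ℕ) : ℝ) := by
      rw [sum_div]
      apply sum_congr rfl
      intro f _
      simp only [Pi.smul_apply, smul_eq_mul, dens]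
      ring
    rw [h2, h1, mul_div_assoc, div_self (hch i), mul_one]

/-- the reverse inclusion -/
theorem upper {m : ℕ} (e : Fin m → ℕ) (he : ∀ i, 0 < e i) (N : ℕ → ℕ) (hN : Tendsto N atTop atTop)
    (hNe : ∀ n i, e i ≤ N n) (x : Fin m → ℝ)
    (hx : ∀ n, x ∈ convexHull ℝ {x : Fin m → ℝ | ∃ G : SimpleGraph (Fin (N n)), x = dens e G}) :
    x ∈ convexHull ℝ (insert (1 : Fin m → ℝ) (Set.range fun k : ℕ => fun i : Fin m =>
        tl (e i) (k + 1))) := by
  classical
  by_contra hxK
  have hcomp : IsCompact (convexHull ℝ (insert (1 : Fin m → ℝ)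
      (Set.range fun k : ℕ => fun i : Fin m => tl (e i) (k + 1)))) := by
    apply compact_hull
    apply Filter.Tendsto.isCompact_insert_range
    rw [tendsto_pi_nhds]
    intro i
    exact (tl_tendsto (e i)).comp (tendsto_add_atTop_nat 1)
  obtain ⟨f, u, hf, hu⟩ := geometric_hahn_banach_closed_point (convex_convexHull _ _)
    hcomp.isClosed hxK
  set c : Fin m → ℝ := fun i => f (Pi.single i 1) with hc
  have hfc : ∀ y, f y = ∑ i, c i * y i := by
    intro y
    conv_lhs => rw [← Finset.univ_sum_single y]
    rw [map_sum]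
    apply sum_congr rfl
    intro i _
    have : Pi.single i (y i) = (y i) • (Pi.single i (1 : ℝ) : Fin m → ℝ) := by
      rw [← Pi.single_smul]; simp
    rw [this, map_smul, smul_eq_mul, mul_comm]
  have hG : ∀ n, ∃ G : SimpleGraph (Fin (N n)), f x ≤ f (dens e G) := by
    intro n
    by_contra hcon
    push Not at hcon
    have hsub : convexHull ℝ {x : Fin m → ℝ | ∃ G : SimpleGraph (Fin (N n)), x = dens e G} ⊆
        {y | f y < f x} := by
      apply convexHull_min
      · rintro y ⟨G, rfl⟩
        exact hcon G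
      · exact convex_halfSpace_lt f.toLinearMap.isLinear _
    have h0 : f x < f x := hsub (hx n)
    exact lt_irrefl _ h0
  have hmain : ∀ k : ℕ, 0 < k → ∑ i, c i * tl (e i) k ≤ u := by
    intro k hk
    obtain ⟨k, rfl⟩ : ∃ l, k = l + 1 := ⟨k - 1, by omega⟩
    have := hf (fun i => tl (e i) (k + 1)) (subset_convexHull _ _ (Or.inr ⟨k, rfl⟩))
    rw [hfc] at this
    exact this.le
  have hbound : ∀ n, 0 < N n → f x ≤ u + ∑ i, |c i| * (1 - tl (e i) (N n)) := by
    intro n hn
    obtain ⟨G, hG⟩ := hG n
    have : Nonempty (Fin (N n)) := ⟨⟨0, hn⟩⟩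
    have h1 := main_ineq c e he G u hmain
    have h2 : ∀ i, c i * ((e i).factorial : ℝ) * ((kc G (e i) : ℝ) *
        ((1 : ℝ) / Fintype.card (Fin (N n))) ^ (e i)) = c i * (dens e G i * tl (e i) (N n)) := by
      intro i
      rw [Fintype.card_fin, tl_eq _ _ (he i) hn, Nat.descFactorial_eq_factorial_mul_choose]
      unfold dens
      have h3 : ((Nat.choose (N n) (e i) : ℕ) : ℝ) ≠ 0 := by
        exact_mod_cast (Nat.choose_pos (hNe n i)).ne'
      have h4 : ((N n : ℕ) : ℝ) ≠ 0 := by exact_mod_cast hn.ne'
      push_cast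
      rw [one_div, inv_pow]
      field_simp
    rw [sum_congr rfl (fun i _ => h2 i)] at h1
    have h3 : f (dens e G) ≤ ∑ i, c i * (dens e G i * tl (e i) (N n)) +
        ∑ i, |c i| * (1 - tl (e i) (N n)) := by
      rw [hfc, ← sum_add_distrib]
      apply sum_le_sum
      intro i _
      have hd0 : 0 ≤ dens e G i := by unfold dens; positivity
      have hd1 : dens e G i ≤ 1 := by
        unfold dens
        have h3 : (0 : ℝ) < ((Nat.choose (N n) (e i) : ℕ) : ℝ) := by
          exact_mod_cast Nat.choose_pos (hNe n i)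
        rw [div_le_one h3]
        have := kc_le G (e i)
        rw [Fintype.card_fin] at this
        exact_mod_cast this
      have ht : tl (e i) (N n) ≤ 1 := by
        rw [tl_eq _ _ (he i) hn, div_le_one (by positivity)]
        exact_mod_cast Nat.descFactorial_le_pow _ _
      have h5 : c i * dens e G i - c i * (dens e G i * tl (e i) (N n)) ≤
          |c i| * (1 - tl (e i) (N n)) := by
        have : c i * dens e G i - c i * (dens e G i * tl (e i) (N n)) =
            (c i * (1 - tl (e i) (N n))) * dens e G i := by ring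
        rw [this]
        have h6 : c i * (1 - tl (e i) (N n)) ≤ |c i| * (1 - tl (e i) (N n)) :=
          mul_le_mul_of_nonneg_right (le_abs_self _) (by linarith)
        have h7 : 0 ≤ |c i| * (1 - tl (e i) (N n)) := mul_nonneg (abs_nonneg _) (by linarith)
        calc (c i * (1 - tl (e i) (N n))) * dens e G i
            ≤ (|c i| * (1 - tl (e i) (N n))) * dens e G i := mul_le_mul_of_nonneg_right h6 hd0
          _ ≤ (|c i| * (1 - tl (e i) (N n))) * 1 := mul_le_mul_of_nonneg_left hd1 h7
          _ = _ := mul_one _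
      linarith
    linarith
  have hlim : Tendsto (fun n => u + ∑ i, |c i| * (1 - tl (e i) (N n))) atTop (𝓝 u) := by
    have : Tendsto (fun n => ∑ i, |c i| * (1 - tl (e i) (N n))) atTop
        (𝓝 (∑ i : Fin m, |c i| * (1 - 1))) := by
      apply tendsto_finsetSum
      intro i _
      exact (((tl_tendsto (e i)).comp hN).const_sub 1).const_mul _
    simpa using this.const_add u
  have hfx : f x ≤ u := by
    apply ge_of_tendsto hlim
    filter_upwards [hN.eventually_gt_atTop 0] with n hn
    exact hbound n hn
  linarith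

end Pool.Agent.N428.CD
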