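import Pool.Agent.N428.CD.Val

set_option autoImplicit false
set_option linter.unusedSectionVars false

namespace Pool.Agent.N428.CD

open Finset Filter Topology

variable {V : Type*} [Fintype V] [DecidableEq V]

/-- number of functions injective on `S` -/
theorem card_injOn {K : ℕ} (S : Finset V) :
    Fintype.card {f : V → Fin K // Set.InjOn f (S : Set V)} =
      K.descFactorial S.card * K ^ (Fintype.card V - S.card) := by
  classical
  let e := Equiv.piEquivPiSubtypeProd (fun x : V => x ∈ S) (fun _ => Fin K)
  have h1 : {f : V → Fin K // Set.InjOn f (S : Set V)} ≃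
      {p : ((i : {x // x ∈ S}) → Fin K) × ((i : {x // ¬ x ∈ S}) → Fin K) //
        Function.Injective p.1} := by
    refine Equiv.subtypeEquiv e ?_
    intro f
    constructor
    · intro h x y hxy
      exact Subtype.ext (h x.2 y.2 hxy)
    · intro h x hx y hy hxy
      have := @h ⟨x, hx⟩ ⟨y, hy⟩ hxy
      exact congrArg Subtype.val this
  let h2 := h1.trans (Equiv.prodSubtypeFstEquivSubtypeProd
    (p := fun g : ((i : {x // x ∈ S}) → Fin K) => Function.Injective g)
    (β := ((i : {x // ¬ x ∈ S}) → Fin K)))
  let h3 := h2.trans (Equiv.prodCongr (Equiv.subtypeInjectiveEquivEmbedding _ _) (Equiv.refl _))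
  rw [Fintype.card_congr h3, Fintype.card_prod, Fintype.card_embedding_eq, Fintype.card_fin,
    Fintype.card_coe, Fintype.card_fun, Fintype.card_fin]
  congr 2
  rw [Fintype.card_subtype_compl, Fintype.card_coe]

/-- the complete multipartite graph with classes the fibres of `f` -/
def GF {K : ℕ} (f : V → Fin K) : SimpleGraph V := SimpleGraph.comap f ⊤

theorem GF_clique {K : ℕ} (f : V → Fin K) (S : Finset V) :
    (GF f).IsClique (S : Set V) ↔ Set.InjOn f (S : Set V) := by
  unfold GF
  constructor
  · intro h x hx y hy hxy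
    by_contra hne
    have := h hx hy hne
    simp [hxy] at this
  · intro h x hx y hy hne
    simp only [SimpleGraph.comap_adj, SimpleGraph.top_adj, ne_eq]
    exact fun hxy => hne (h hx hy hxy)

/-- average over all functions -/
theorem avg_kc (K r : ℕ) (hK : 0 < K) (hr : 0 < r) :
    ∑ f : V → Fin K, ((1 : ℝ) / (K : ℝ) ^ (Fintype.card V)) * (kc (GF f) r : ℝ) =
      tl r K * ((Fintype.card V).choose r : ℝ) := by
  classical
  have hK' : (K : ℝ) ≠ 0 := by exact_mod_cast hK.ne'
  rw [← mul_sum]
  have h1 : ∑ f : V → Fin K, (kc (GF f) r : ℝ) =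
      ((Fintype.card V).choose r : ℝ) * ((K.descFactorial r * K ^ (Fintype.card V - r) : ℕ) : ℝ) := by
    have h2 : ∀ f : V → Fin K, (kc (GF f) r : ℝ) =
        ∑ S ∈ powersetCard r (univ : Finset V), if Set.InjOn f (S : Set V) then (1 : ℝ) else 0 := by
      intro f
      unfold kc cl
      rw [card_filter]
      push_cast
      apply sum_congr rfl
      intro S _
      simp only [GF_clique]
    rw [sum_congr rfl (fun f _ => h2 f), sum_comm]
    have h3 : ∀ S ∈ powersetCard r (univ : Finset V),
        (∑ f : V → Fin K, if Set.InjOn f (S : Set V) then (1 : ℝ) else 0) =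
        ((K.descFactorial r * K ^ (Fintype.card V - r) : ℕ) : ℝ) := by
      intro S hS
      rw [mem_powersetCard] at hS
      rw [← hS.2, ← card_injOn S, Fintype.card_subtype, card_filter]
      push_cast
      rfl
    rw [sum_congr rfl h3, sum_const, card_powersetCard, card_univ, nsmul_eq_mul]
  rw [h1, tl_eq _ _ hr hK]
  by_cases hrV : r ≤ Fintype.card V
  · have h4 : (K : ℝ) ^ (Fintype.card V) = (K : ℝ) ^ r * (K : ℝ) ^ (Fintype.card V - r) := by
      rw [← pow_add]; congr 1; omega
    rw [h4]
    push_cast
    field_simp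
  · rw [Nat.choose_eq_zero_of_lt (by omega)]
    simp

end Pool.Agent.N428.CD
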