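import Mathlib

/-!
A Motzkin–Straus type statement for arbitrary real linear combinations of clique densities.
-/

set_option autoImplicit false
set_option linter.unusedSectionVars false

namespace Pool.Agent.N428.CD

open Finset

variable {V : Type*} [Fintype V] [DecidableEq V]

/-- the multi-affine polynomial with coefficients `g` -/
noncomputable def F (g : Finset V → ℝ) (w : V → ℝ) : ℝ :=
  ∑ K : Finset V, g K * ∏ v ∈ K, w v

theorem F_cont (g : Finset V → ℝ) : Continuous (F g) := by
  unfold F
  fun_prop

/-- splitting off two coordinates -/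
theorem F_split (g : Finset V → ℝ) (w : V → ℝ) (a b : V) (hab : a ≠ b) :
    F g w = ∑ K ∈ ((univ.erase a).erase b).powerset,
      (g K + g (insert a K) * w a + g (insert b K) * w b + g (insert a (insert b K)) * (w a * w b))
        * ∏ v ∈ K, w v := by
  have h1 : (univ : Finset V) = insert a (insert b ((univ.erase a).erase b)) := by
    ext x
    simp only [mem_univ, mem_insert, mem_erase, ne_eq, true_iff]
    tauto
  have hb : b ∉ (univ.erase a).erase b := by simp
  have ha : a ∉ insert b ((univ.erase a).erase b) := by
    simp [hab]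
  unfold F
  have h2 : (∑ K : Finset V, g K * ∏ v ∈ K, w v) =
      ∑ K ∈ (univ : Finset V).powerset, g K * ∏ v ∈ K, w v := by
    rw [Finset.powerset_univ]
  rw [h2]
  conv_lhs => rw [h1]
  rw [Finset.sum_powerset_insert ha, Finset.sum_powerset_insert hb, Finset.sum_powerset_insert hb,
    ← Finset.sum_add_distrib, ← Finset.sum_add_distrib, ← Finset.sum_add_distrib]
  apply Finset.sum_congr rfl
  intro K hK
  rw [Finset.mem_powerset] at hK
  have hbK : b ∉ K := fun h => by simpa using hK h
  have haK : a ∉ K := fun h => by simpa using hK h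
  have haK2 : a ∉ insert b K := by simp [hab, haK]
  rw [Finset.prod_insert hbK, Finset.prod_insert haK, Finset.prod_insert haK2,
    Finset.prod_insert hbK]
  ring

/-- moving mass `t` from `b` to `a` -/
noncomputable def mv (w : V → ℝ) (a b : V) (t : ℝ) : V → ℝ :=
  Function.update (Function.update w a (w a + t)) b (w b - t)

theorem mv_a (w : V → ℝ) (a b : V) (t : ℝ) (hab : a ≠ b) : mv w a b t a = w a + t := by
  simp [mv, hab]

theorem mv_b (w : V → ℝ) (a b : V) (t : ℝ) : mv w a b t b = w b - t := by
  simp [mv]

theorem mv_ne (w : V → ℝ) (a b : V) (t : ℝ) (c : V) (ha : c ≠ a) (hb : c ≠ b) :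
    mv w a b t c = w c := by
  simp [mv, ha, hb]

theorem mv_sum (w : V → ℝ) (a b : V) (t : ℝ) (hab : a ≠ b) : ∑ v, mv w a b t v = ∑ v, w v := by
  have h1 : (univ : Finset V) = insert a (insert b ((univ.erase a).erase b)) := by
    ext x
    simp only [mem_univ, mem_insert, mem_erase, ne_eq, true_iff]
    tauto
  have hb : b ∉ (univ.erase a).erase b := by simp
  have ha : a ∉ insert b ((univ.erase a).erase b) := by
    simp [hab]
  rw [h1, sum_insert ha, sum_insert ha, sum_insert hb, sum_insert hb, mv_a _ _ _ _ hab, mv_b]
  have : ∑ x ∈ (univ.erase a).erase b, mv w a b t x = ∑ x ∈ (univ.erase a).erase b, w x := by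
    apply sum_congr rfl
    intro x hx
    simp only [mem_erase, mem_univ, and_true, ne_eq] at hx
    exact mv_ne _ _ _ _ _ hx.2 hx.1
  rw [this]
  ring

theorem mv_mem {w : V → ℝ} (hw : w ∈ stdSimplex ℝ V) {a b : V} (hab : a ≠ b) {t : ℝ}
    (h1 : -w a ≤ t) (h2 : t ≤ w b) : mv w a b t ∈ stdSimplex ℝ V := by
  refine ⟨fun x => ?_, ?_⟩
  · by_cases hb : x = b
    · subst hb; rw [mv_b]; linarith
    · by_cases ha : x = a
      · subst ha; rw [mv_a _ _ _ _ hab]; linarith
      · rw [mv_ne _ _ _ _ _ ha hb]; exact hw.1 x
  · rw [mv_sum _ _ _ _ hab]; exact hw.2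

/-- the change of `F` under moving mass -/
theorem F_mv (g : Finset V → ℝ) (w : V → ℝ) (a b : V) (hab : a ≠ b) (t : ℝ) :
    F g (mv w a b t) - F g w =
      ∑ K ∈ ((univ.erase a).erase b).powerset,
        (t * (g (insert a K) - g (insert b K)) +
          g (insert a (insert b K)) * (t * (w b - w a - t))) * ∏ v ∈ K, w v := by
  rw [F_split g _ a b hab, F_split g w a b hab, ← sum_sub_distrib]
  apply sum_congr rfl
  intro K hK
  rw [mem_powerset] at hK
  have hbK : b ∉ K := fun h => by simpa using hK h
  have haK : a ∉ K := fun h => by simpa using hK h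
  have hprod : ∏ v ∈ K, mv w a b t v = ∏ v ∈ K, w v := by
    apply prod_congr rfl
    intro x hx
    exact mv_ne _ _ _ _ _ (fun h => haK (h ▸ hx)) (fun h => hbK (h ▸ hx))
  rw [hprod, mv_a _ _ _ _ hab, mv_b]
  ring

/-- A maximiser of minimal support is uniform on a clique. -/
theorem exists_uniform [Nonempty V] (G : SimpleGraph V) (g : Finset V → ℝ)
    (hg0 : ∀ K : Finset V, ¬ G.IsClique (K : Set V) → g K = 0)
    (hg : ∀ K L : Finset V, G.IsClique (K : Set V) → G.IsClique (L : Set V) →
      K.card = L.card → g K = g L) :
    ∃ U : Finset V, U.Nonempty ∧ G.IsClique (U : Set V) ∧ ∀ w ∈ stdSimplex ℝ V,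
      F g w ≤ F g (fun v => if v ∈ U then (1 : ℝ) / U.card else 0) := by
  classical
  -- maximisers
  obtain ⟨w0, hw0, hmax0⟩ := (isCompact_stdSimplex ℝ V).exists_isMaxOn
    (by
      obtain ⟨v⟩ := ‹Nonempty V›
      exact ⟨_, single_mem_stdSimplex ℝ v⟩)
    (F_cont g).continuousOn
  have hex : ∃ n : ℕ, ∃ w ∈ stdSimplex ℝ V, F g w = F g w0 ∧
      (univ.filter fun v => w v ≠ 0).card = n := ⟨_, w0, hw0, rfl, rfl⟩
  obtain ⟨w, hw, hFw, hcard⟩ := Nat.find_spec hex
  have hmin : ∀ w' ∈ stdSimplex ℝ V, F g w' = F g w0 →
      (univ.filter fun v => w v ≠ 0).card ≤ (univ.filter fun v => w' v ≠ 0).card := by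
    intro w' hw' hF'
    rw [hcard]
    exact Nat.find_min' hex ⟨w', hw', hF', rfl⟩
  have hmax : ∀ w' ∈ stdSimplex ℝ V, F g w' ≤ F g w := by
    intro w' hw'
    rw [hFw]
    exact hmax0 hw'
  set U := univ.filter fun v => w v ≠ 0 with hU
  have hpos : ∀ v ∈ U, 0 < w v := by
    intro v hv
    rw [hU, mem_filter] at hv
    exact lt_of_le_of_ne (hw.1 v) (Ne.symm hv.2)
  -- no vertex of the support can be emptied
  have hno : ∀ a b : V, a ≠ b → a ∈ U → b ∈ U → F g (mv w a b (-w a)) ≠ F g w := by
    intro a b hab ha hb hF
    have hmem : mv w a b (-w a) ∈ stdSimplex ℝ V :=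
      mv_mem hw hab le_rfl (by have := hpos a ha; have := hpos b hb; linarith)
    have h1 := hmin _ hmem (by rw [hF, hFw])
    have h2 : (univ.filter fun v => mv w a b (-w a) v ≠ 0) ⊆ U.erase a := by
      intro x hx
      rw [mem_filter] at hx
      have hxa : x ≠ a := by
        rintro rfl
        apply hx.2
        rw [mv_a _ _ _ _ hab]
        ring
      rw [mem_erase]
      refine ⟨hxa, ?_⟩
      by_cases hxb : x = b
      · rw [hxb]; exact hb
      · rw [mv_ne _ _ _ _ _ hxa hxb] at hx
        rw [hU, mem_filter]
        exact ⟨mem_univ _, hx.2⟩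
    have h3 := card_le_card h2
    rw [card_erase_of_mem ha] at h3
    have h4 : 0 < U.card := card_pos.2 ⟨a, ha⟩
    omega
  -- the support is a clique
  have hclique : G.IsClique (U : Set V) := by
    intro a ha b hb hab
    by_contra hadj
    have ha' : a ∈ U := by simpa using ha
    have hb' : b ∈ U := by simpa using hb
    have hzero : ∀ K : Finset V, g (insert a (insert b K)) = 0 := by
      intro K
      apply hg0
      intro hc
      exact hadj (hc (by simp) (by simp) hab)
    have hlin : ∀ t, F g (mv w a b t) - F g w = t *
        ∑ K ∈ ((univ.erase a).erase b).powerset, (g (insert a K) - g (insert b K)) *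
          ∏ v ∈ K, w v := by
      intro t
      rw [F_mv g w a b hab t, mul_sum]
      apply sum_congr rfl
      intro K _
      rw [hzero K]
      ring
    set A := ∑ K ∈ ((univ.erase a).erase b).powerset, (g (insert a K) - g (insert b K)) *
          ∏ v ∈ K, w v with hA
    have h1 := hlin (w b)
    have h2 := hlin (-w a)
    have m1 := hmax _ (mv_mem hw hab (t := w b) (by have := hpos a ha'; have := hpos b hb'; linarith)
      le_rfl)
    have m2 := hmax _ (mv_mem hw hab (t := -w a) le_rfl
      (by have := hpos a ha'; have := hpos b hb'; linarith))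
    have hA1 : A ≤ 0 := by
      have := hpos b hb'
      by_contra hcon
      push Not at hcon
      have := mul_pos this hcon
      linarith
    have hA2 : 0 ≤ A := by
      have := hpos a ha'
      by_contra hcon
      push Not at hcon
      have := mul_neg_of_pos_of_neg this hcon
      linarith
    have hA0 : A = 0 := le_antisymm hA1 hA2
    apply hno a b hab ha' hb'
    rw [hA0] at h2
    linarith
  -- all weights are equal
  have heq : ∀ a ∈ U, ∀ b ∈ U, w a = w b := by
    have key : ∀ a ∈ U, ∀ b ∈ U, ¬ w a < w b := by
      intro a ha b hb hlt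
      have hab : a ≠ b := by rintro rfl; exact lt_irrefl _ hlt
      have hpa := hpos a ha
      have hpb := hpos b hb
      have hquad : ∀ t, F g (mv w a b t) - F g w = (t * (w b - w a - t)) *
          ∑ K ∈ ((univ.erase a).erase b).powerset, g (insert a (insert b K)) *
            ∏ v ∈ K, w v := by
        intro t
        rw [F_mv g w a b hab t, mul_sum]
        apply sum_congr rfl
        intro K hK
        by_cases hK0 : ∏ v ∈ K, w v = 0
        · rw [hK0]; ring
        · have hK0 := prod_ne_zero_iff.1 hK0
          have hKU : ∀ v ∈ K, v ∈ U := fun v hv => by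
            rw [hU, mem_filter]; exact ⟨mem_univ _, hK0 v hv⟩
          rw [mem_powerset] at hK
          have hbK : b ∉ K := fun h => by simpa using hK h
          have haK : a ∉ K := fun h => by simpa using hK h
          have hc1 : G.IsClique ((insert a K : Finset V) : Set V) := by
            refine hclique.subset ?_
            intro x hx
            simp only [coe_insert, Set.mem_insert_iff, mem_coe] at hx ⊢
            rcases hx with rfl | hx
            · exact ha
            · exact hKU x hx
          have hc2 : G.IsClique ((insert b K : Finset V) : Set V) := by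
            refine hclique.subset ?_
            intro x hx
            simp only [coe_insert, Set.mem_insert_iff, mem_coe] at hx ⊢
            rcases hx with rfl | hx
            · exact hb
            · exact hKU x hx
          have : g (insert a K) = g (insert b K) := hg _ _ hc1 hc2 (by
            rw [card_insert_of_notMem haK, card_insert_of_notMem hbK])
          rw [this]
          ring
      set C := ∑ K ∈ ((univ.erase a).erase b).powerset, g (insert a (insert b K)) *
            ∏ v ∈ K, w v with hC
      have m1 := hmax _ (mv_mem hw hab (t := (w b - w a) / 2) (by linarith) (by linarith))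
      have m2 := hmax _ (mv_mem hw hab (t := -w a) le_rfl (by linarith))
      have h1 := hquad ((w b - w a) / 2)
      have h2 := hquad (-w a)
      have hC1 : C ≤ 0 := by
        by_contra hcon
        push Not at hcon
        have h3 : 0 < ((w b - w a) / 2 * (w b - w a - (w b - w a) / 2)) * C := by
          apply mul_pos _ hcon
          apply mul_pos <;> linarith
        linarith
      have hC2 : 0 ≤ C := by
        by_contra hcon
        push Not at hcon
        have h3 : 0 < (-w a * (w b - w a - -w a)) * C := by
          have : -w a * (w b - w a - -w a) < 0 := by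
            have : w b - w a - -w a = w b := by ring
            rw [this]
            have := mul_pos hpa hpb
            linarith
          exact mul_pos_of_neg_of_neg this hcon
        linarith
      have hC0 : C = 0 := le_antisymm hC1 hC2
      apply hno a b hab ha hb
      rw [hC0] at h2
      linarith
    intro a ha b hb
    rcases lt_trichotomy (w a) (w b) with h | h | h
    · exact absurd h (key a ha b hb)
    · exact h
    · exact absurd h (key b hb a ha)
  have hUne : U.Nonempty := by
    by_contra hne
    rw [not_nonempty_iff_eq_empty] at hne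
    have : ∀ v, w v = 0 := by
      intro v
      by_contra hv
      have : v ∈ U := by rw [hU, mem_filter]; exact ⟨mem_univ _, hv⟩
      rw [hne] at this
      simp at this
    have h1 := hw.2
    simp [this] at h1
  refine ⟨U, hUne, hclique, ?_⟩
  have hval : w = fun v => if v ∈ U then (1 : ℝ) / U.card else 0 := by
    obtain ⟨u, hu⟩ := hUne
    have hsum : ∑ v, w v = U.card * w u := by
      rw [← Finset.sum_subset (subset_univ U) (fun x _ hx => by
        by_contra hne
        exact hx (by rw [hU, mem_filter]; exact ⟨mem_univ _, hne⟩))]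
      rw [sum_congr rfl (fun v hv => heq v hv u hu), sum_const, nsmul_eq_mul]
    rw [hw.2] at hsum
    have hc : (0 : ℝ) < U.card := by exact_mod_cast card_pos.2 ⟨u, hu⟩
    funext v
    by_cases hv : v ∈ U
    · rw [if_pos hv, heq v hv u hu]
      field_simp
      linarith
    · rw [if_neg hv]
      by_contra hne
      exact hv (by rw [hU, mem_filter]; exact ⟨mem_univ _, hne⟩)
  rw [← hval]
  exact hmax

end Pool.Agent.N428.CD
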