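import Pool.Agent.N428.CD.MS

set_option autoImplicit false
set_option linter.unusedSectionVars false

namespace Pool.Agent.N428.CD

open Finset Filter Topology

/-- the tail vector -/
noncomputable def tl (r k : ℕ) : ℝ := ∏ j ∈ Finset.Ico 1 r, (1 - (j : ℝ) / (k : ℝ))

theorem desc_cast (k r : ℕ) : ((k.descFactorial r : ℕ) : ℝ) = ∏ j ∈ range r, ((k : ℝ) - j) := by
  induction r with
  | zero => simp
  | succ r ih =>
    rw [Nat.descFactorial_succ, prod_range_succ, Nat.cast_mul, ih]
    rcases le_or_gt r k with h | h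
    · rw [Nat.cast_sub h]; ring
    · have h0 : ∏ j ∈ range r, ((k : ℝ) - j) = 0 := by
        apply prod_eq_zero (mem_range.2 h)
        ring
      rw [h0]; ring

theorem tl_eq (r k : ℕ) (hr : 0 < r) (hk : 0 < k) :
    tl r k = ((k.descFactorial r : ℕ) : ℝ) / (k : ℝ) ^ r := by
  rw [desc_cast]
  have hk' : (k : ℝ) ≠ 0 := by exact_mod_cast hk.ne'
  have h1 : ∏ j ∈ range r, ((k : ℝ) - j) = (k : ℝ) ^ r * ∏ j ∈ range r, (1 - (j : ℝ) / k) := by
    have : (k : ℝ) ^ r = ∏ _j ∈ range r, (k : ℝ) := by simp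
    rw [this, ← prod_mul_distrib]
    apply prod_congr rfl
    intro j _
    field_simp
  rw [h1, mul_comm, mul_div_assoc, div_self (pow_ne_zero _ hk'), mul_one]
  unfold tl
  obtain ⟨s, rfl⟩ : ∃ s, r = s + 1 := ⟨r - 1, by omega⟩
  have h2 : ∏ j ∈ range (s + 1), (1 - (j : ℝ) / k) = ∏ j ∈ Ico 1 (s + 1), (1 - (j : ℝ) / k) := by
    rw [range_eq_Ico, prod_eq_prod_Ico_succ_bot (Nat.succ_pos s)]
    simp
  rw [h2]

variable {V : Type*} [Fintype V] [DecidableEq V]

open Classical in
/-- the `r`-cliques -/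
noncomputable def cl (G : SimpleGraph V) (r : ℕ) : Finset (Finset V) :=
  (powersetCard r (univ : Finset V)).filter fun K : Finset V => G.IsClique (K : Set V)

theorem mem_cl (G : SimpleGraph V) (r : ℕ) (K : Finset V) :
    K ∈ cl G r ↔ K.card = r ∧ G.IsClique (K : Set V) := by
  simp [cl, mem_powersetCard]

/-- number of `r`-cliques -/
noncomputable def kc (G : SimpleGraph V) (r : ℕ) : ℕ := (cl G r).card

open Classical in
/-- the coefficient function -/
noncomputable def cf {m : ℕ} (c : Fin m → ℝ) (e : Fin m → ℕ) (G : SimpleGraph V)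
    (K : Finset V) : ℝ :=
  if G.IsClique (K : Set V) then ∑ i, (if K.card = e i then c i * ((e i).factorial : ℝ) else 0)
  else 0

theorem F_cf {m : ℕ} (c : Fin m → ℝ) (e : Fin m → ℕ) (G : SimpleGraph V) (w : V → ℝ) :
    F (cf c e G) w = ∑ i, c i * ((e i).factorial : ℝ) *
      ∑ K ∈ cl G (e i), ∏ v ∈ K, w v := by
  classical
  unfold F cf
  have : ∀ K : Finset V, (if G.IsClique (K : Set V) then
      ∑ i, (if K.card = e i then c i * ((e i).factorial : ℝ) else 0) else 0) * ∏ v ∈ K, w v =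
      ∑ i, (if (K.card = e i ∧ G.IsClique (K : Set V)) then
        c i * ((e i).factorial : ℝ) * ∏ v ∈ K, w v else 0) := by
    intro K
    by_cases hK : G.IsClique (K : Set V)
    · rw [if_pos hK, sum_mul]
      apply sum_congr rfl
      intro i _
      by_cases h : K.card = e i
      · simp [h, hK]
      · simp [h]
    · simp [hK]
  rw [sum_congr rfl (fun K _ => this K), sum_comm]
  apply sum_congr rfl
  intro i _
  rw [mul_sum, ← sum_filter]
  apply sum_congr _ (fun _ _ => rfl)
  ext K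
  simp [mem_cl]

theorem F_unif_all {m : ℕ} (c : Fin m → ℝ) (e : Fin m → ℕ) (G : SimpleGraph V) (x : ℝ) :
    F (cf c e G) (fun _ => x) = ∑ i, c i * ((e i).factorial : ℝ) * ((kc G (e i) : ℝ) * x ^ (e i)) := by
  classical
  rw [F_cf]
  apply sum_congr rfl
  intro i _
  congr 1
  unfold kc
  rw [← nsmul_eq_mul, ← sum_const]
  apply sum_congr rfl
  intro K hK
  rw [mem_cl] at hK
  rw [prod_const, hK.1]

theorem F_unif_clique {m : ℕ} (c : Fin m → ℝ) (e : Fin m → ℕ) (he : ∀ i, 0 < e i)
    (G : SimpleGraph V) (U : Finset V) (hU : U.Nonempty) (hc : G.IsClique (U : Set V)) :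
    F (cf c e G) (fun v => if v ∈ U then (1 : ℝ) / U.card else 0) =
      ∑ i, c i * tl (e i) U.card := by
  classical
  rw [F_cf]
  apply sum_congr rfl
  intro i _
  have hpos : 0 < U.card := card_pos.2 hU
  have h1 : ∑ K ∈ cl G (e i), ∏ v ∈ K, (if v ∈ U then (1 : ℝ) / U.card else 0) =
      ∑ K ∈ powersetCard (e i) U, ((1 : ℝ) / U.card) ^ (e i) := by
    rw [← sum_subset (s₁ := powersetCard (e i) U)]
    · apply sum_congr rfl
      intro K hK
      rw [mem_powersetCard] at hK
      rw [prod_congr rfl (fun v hv => if_pos (hK.1 hv)), prod_const, hK.2]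
    · intro K hK
      rw [mem_powersetCard] at hK
      rw [mem_cl]
      exact ⟨hK.2, hc.subset (by exact_mod_cast hK.1)⟩
    · intro K hK hK2
      rw [mem_cl] at hK
      rw [mem_powersetCard] at hK2
      have : ¬ K ⊆ U := fun h => hK2 ⟨h, hK.1⟩
      rw [not_subset] at this
      obtain ⟨v, hv, hvU⟩ := this
      exact prod_eq_zero hv (if_neg hvU)
  rw [h1, sum_const, card_powersetCard, nsmul_eq_mul, tl_eq _ _ (he i) hpos,
    Nat.descFactorial_eq_factorial_mul_choose, Nat.cast_mul, one_div, inv_pow]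
  ring

/-- Main inequality -/
theorem main_ineq [Nonempty V] {m : ℕ} (c : Fin m → ℝ) (e : Fin m → ℕ) (he : ∀ i, 0 < e i)
    (G : SimpleGraph V) (u : ℝ) (hu : ∀ k : ℕ, 0 < k → ∑ i, c i * tl (e i) k ≤ u) :
    ∑ i, c i * ((e i).factorial : ℝ) * ((kc G (e i) : ℝ) * ((1 : ℝ) / Fintype.card V) ^ (e i)) ≤ u := by
  classical
  obtain ⟨U, hU, hc, h⟩ := exists_uniform G (cf c e G) (fun K hK => by simp [cf, hK])
    (fun K L hK hL hKL => by simp [cf, hK, hL, hKL])
  have h1 := h (fun _ => (1 : ℝ) / Fintype.card V) (by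
    refine ⟨fun _ => by positivity, ?_⟩
    rw [sum_const, card_univ, nsmul_eq_mul]
    have : (Fintype.card V : ℝ) ≠ 0 := by exact_mod_cast Fintype.card_ne_zero
    field_simp)
  rw [F_unif_all, F_unif_clique c e he G U hU hc] at h1
  exact h1.trans (hu _ (card_pos.2 hU))

theorem kc_le (G : SimpleGraph V) (r : ℕ) : kc G r ≤ (Fintype.card V).choose r := by
  classical
  unfold kc cl
  refine (card_filter_le _ _).trans ?_
  rw [card_powersetCard, card_univ]

end Pool.Agent.N428.CD
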